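import Pool.Agent.X171.SP.Thm

/-!
# MP_9b1016_an, Q1 and Q2: semiprojective and `ℓ`-open Banach lattices are the same

Both properties are equivalent to: (*) for every separable Banach lattice `B` and every closed
ideal `I` of `B`, every contractive lattice homomorphism `A → B / I` is `1⁺`-liftable.

Semiprojective implies (*) (`lift_of_semiprojective`): `B` has contractive lattice homomorphisms
`M k : B → B` (multiplication with `1 - v k`, where the `v k` form an approximate unit of `I`)
with `x - M k x ∈ I` and `M k x → 0` for `x ∈ I`. Let `L` be the separable Banach lattice of the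
sequences `(M k x + z k)` with `x ∈ B`, `z k ∈ I`, `z k → 0`. The sequences in `L` with values in
`I` form a closed ideal `J`, the closure of the union of the ideals `J n` of the sequences in `J`
which vanish from `n` on, and `x + I ↦ (M k x) + J` is a contractive lattice homomorphism
`B / I → L / J`. A lift of `A → B / I → L / J` to `L / J n`, composed with the evaluation at `n`,
is a lift `A → B` of `A → B / I`.

`ℓ`-open implies (*): the set of the `t ∈ [0,1]` such that `t φ` is `1⁺`-liftable contains `0`, is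
closed, and is open if `A` is `ℓ`-open.
-/

open Filter
open scoped Topology

namespace Pool.Agent.Results.MP_9b1016_an.SemiprojectiveIffLOpen

open Pool.Agent.X171.BL Pool.Agent.X171.SP

universe u v

section
variable {A : Type u} [NormedAddCommGroup A] [Lattice A] [NormedSpace ℝ A]

lemma smul_hom {C : Type v} [NormedAddCommGroup C] [Lattice C] [NormedSpace ℝ C]
    [BanachLattice C] {φ : A →L[ℝ] C} (hφ : IsLatticeHom φ) {t : ℝ} (ht : 0 ≤ t) :
    IsLatticeHom (t • φ) := by
  rcases eq_or_lt_of_le ht with h | h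
  · subst h
    refine ⟨fun x y => ?_, fun x y => ?_⟩ <;> simp
  · refine ⟨fun x y => ?_, fun x y => ?_⟩
    · rw [smul_apply, hφ.sup, smul_sup' h]
      rfl
    · rw [smul_apply, hφ.inf, smul_inf' h]
      rfl

/-- the path `t ↦ t φ` in `Hom₁(A, C)` -/
noncomputable def path {C : Type v} [NormedAddCommGroup C] [Lattice C] [NormedSpace ℝ C]
    [BanachLattice C] (φ : HomOne A C) (t : unitInterval) : HomOne A C :=
  ⟨(t : ℝ) • φ.1, smul_hom φ.2.1 t.2.1, by
    rw [norm_smul, Real.norm_eq_abs, abs_of_nonneg t.2.1]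
    exact mul_le_one₀ t.2.2 (norm_nonneg _) φ.2.2⟩

lemma path_continuous {C : Type v} [NormedAddCommGroup C] [Lattice C] [NormedSpace ℝ C]
    [BanachLattice C] (φ : HomOne A C) : Continuous (path φ) := by
  refine continuous_induced_rng.2 (continuous_pi fun a => ?_)
  change Continuous fun t : unitInterval => (t : ℝ) • φ.1 a
  exact continuous_subtype_val.smul continuous_const

lemma lift_of_lOpen (hA : LOpen.{u, v} A) {X : Type v} [NormedAddCommGroup X] [Lattice X]
    [NormedSpace ℝ X] [BanachLattice X] [TopologicalSpace.SeparableSpace X] (J : ClosedIdeal X)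
    (φ : A →L[ℝ] J.Quo) (hφ : IsLatticeHom φ) (hφ1 : ‖φ‖ ≤ 1) : OnePlusLiftable J φ := by
  set U : Set unitInterval := {t | OnePlusLiftable J ((t : ℝ) • φ)} with hU
  have h1 : IsOpen U := (hA X J).preimage (path_continuous ⟨φ, hφ, hφ1⟩)
  have h0 : (0 : unitInterval) ∈ U := by
    intro ε hε
    refine ⟨0, ⟨fun x y => by simp, fun x y => by simp⟩, fun a => by simp, ?_⟩
    rw [norm_zero]
    linarith
  have h2 : IsClosed U := by
    refine isClosed_of_closure_subset fun t ht => ?_
    rcases eq_or_lt_of_le t.2.1 with h | h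
    · have : t = 0 := Subtype.ext h.symm
      rw [this]
      exact h0
    · intro ε hε
      have hη : 0 < (t : ℝ) * (ε / (2 * (1 + ε))) := by positivity
      obtain ⟨s, hs, hst⟩ := Metric.mem_closure_iff.1 ht _ hη
      rw [Subtype.dist_eq, Real.dist_eq] at hst
      have h3 : (t : ℝ) * (1 + ε / 2) ≤ s * (1 + ε) := by
        have h4 := (abs_lt.1 hst).2
        have h5 : (t : ℝ) - t * (ε / (2 * (1 + ε))) ≤ s := by linarith
        calc (t : ℝ) * (1 + ε / 2) = (t - t * (ε / (2 * (1 + ε)))) * (1 + ε) := by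
              field_simp
              ring
          _ ≤ s * (1 + ε) := by gcongr
      have hs0 : 0 < (s : ℝ) := by
        by_contra hcon
        have h6 : (s : ℝ) * (1 + ε) ≤ 0 := mul_nonpos_of_nonpos_of_nonneg (not_lt.1 hcon)
          (by linarith)
        have h7 : 0 < (t : ℝ) * (1 + ε / 2) := by positivity
        linarith
      obtain ⟨ψ, hψ, hψ1, hψ2⟩ := hs (ε / 2) (by positivity)
      refine ⟨((t : ℝ) / s) • ψ, smul_hom hψ (by positivity), fun a => ?_, ?_⟩
      · rw [smul_apply, map_smul, hψ1, smul_apply,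
          smul_apply, smul_smul, div_mul_cancel₀ _ hs0.ne']
      · rw [norm_smul, Real.norm_eq_abs, abs_of_nonneg (by positivity)]
        calc (t : ℝ) / s * ‖ψ‖ ≤ (t : ℝ) / s * (1 + ε / 2) := by gcongr
          _ = (t : ℝ) * (1 + ε / 2) / s := by ring
          _ ≤ 1 + ε := by
            rw [div_le_iff₀ hs0]
            linarith
  have h3 : U = Set.univ := IsClopen.eq_univ ⟨h2, h1⟩ ⟨0, h0⟩
  have h4 : (1 : unitInterval) ∈ U := h3 ▸ Set.mem_univ _
  have h5 : OnePlusLiftable J (((1 : unitInterval) : ℝ) • φ) := h4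
  rwa [Set.Icc.coe_one, one_smul] at h5

end

/-- **Theorem.** A Banach lattice is semiprojective if and only if it is `ℓ`-open; and then all
contractive lattice homomorphisms into quotients of separable Banach lattices are
`1⁺`-liftable. -/
theorem result (A : Type u) [NormedAddCommGroup A] [Lattice A] [NormedSpace ℝ A]
    [BanachLattice A] :
    (Semiprojective.{u, v} A → LOpen.{u, v} A) ∧ (LOpen.{u, v} A → Semiprojective.{u, v} A) ∧
    (Semiprojective.{u, v} A ↔
      ∀ (B : Type v) [NormedAddCommGroup B] [Lattice B] [NormedSpace ℝ B] [BanachLattice B]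
        [TopologicalSpace.SeparableSpace B] (I : ClosedIdeal B) (φ : A →L[ℝ] I.Quo),
        IsLatticeHom φ → ‖φ‖ ≤ 1 → OnePlusLiftable I φ) := by
  have h1 : (∀ (B : Type v) [NormedAddCommGroup B] [Lattice B] [NormedSpace ℝ B]
      [BanachLattice B] [TopologicalSpace.SeparableSpace B] (I : ClosedIdeal B)
      (φ : A →L[ℝ] I.Quo), IsLatticeHom φ → ‖φ‖ ≤ 1 → OnePlusLiftable I φ) →
      Semiprojective.{u, v} A := by
    intro h B _ _ _ _ _ I J hI hJ φ hφ hφ1
    refine ⟨0, fun ε hε => ?_⟩
    obtain ⟨ψ, hψ, hψ1, hψ2⟩ := h B J φ hφ hφ1 ε hε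
    refine ⟨(I 0).proj.comp ψ, (I 0).mk_hom.comp hψ, ?_, fun a b hb => ?_⟩
    · refine (ContinuousLinearMap.opNorm_comp_le _ _).trans ?_
      have h2 : ‖(I 0).proj‖ ≤ 1 := ContinuousLinearMap.opNorm_le_bound _ zero_le_one fun x => by
        rw [one_mul]
        exact (I 0).norm_mk_le x
      calc ‖(I 0).proj‖ * ‖ψ‖ ≤ 1 * (1 + ε) := by gcongr
        _ = 1 + ε := one_mul _
    · rw [← hψ1, J.mk_eq_iff]
      have h3 : b - ψ a ∈ I 0 := (I 0).mk_eq_iff.1 hb
      have h4 : b - ψ a ∈ (J : Set B) := by
        rw [hJ]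
        exact subset_closure (Set.mem_iUnion.2 ⟨0, h3⟩)
      exact h4
  refine ⟨fun h B _ _ _ _ _ I => ?_, fun h => h1 ?_, fun h => ?_, h1⟩
  · have h2 : {φ : HomOne A I.Quo | OnePlusLiftable I φ.1} = Set.univ := by
      ext φ
      exact ⟨fun _ => trivial, fun _ => lift_of_semiprojective h I φ.1 φ.2.1 φ.2.2⟩
    rw [h2]
    exact isOpen_univ
  · intro B _ _ _ _ _ I φ hφ hφ1
    exact lift_of_lOpen h I φ hφ hφ1
  · intro B _ _ _ _ _ I φ hφ hφ1
    exact lift_of_semiprojective h I φ hφ hφ1

end Pool.Agent.Results.MP_9b1016_an.SemiprojectiveIffLOpen
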